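import Mathlib

set_option autoImplicit false

namespace Pool.Agent.H.MP_6e5331_al

open Polynomial

/-- The group-theoretic property that no pro-orderable group has. -/
def Bad (G : Type*) [Group G] : Prop :=
  ∃ g x1 x2 y1 y2 a b : G, a = (x1⁻¹ * g * x1) * (x2⁻¹ * g * x2) ∧
    b = (y1⁻¹ * g⁻¹ * y1) * (y2⁻¹ * g⁻¹ * y2) ∧
    (∃ s t : G, a = (s⁻¹ * a * s) * (t⁻¹ * b * t)) ∧
    (∃ s t : G, b = (s⁻¹ * a * s) * (t⁻¹ * b * t)) ∧
    (∀ s t s' t' : G, ∃ p q : G, ((s⁻¹ * a * s) * (t⁻¹ * b * t)) * ((s'⁻¹ * a * s') * (t'⁻¹ * b * t'))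
      = (p⁻¹ * a * p) * (q⁻¹ * b * q)) ∧
    (∀ s t : G, ¬ (s⁻¹ * a * s) * (t⁻¹ * b * t) = 1)

theorem not_bad {G : Type*} [Group G]
    (h : ∀ r : G → G → Prop, (∀ a, r a a) → (∀ a b, r a b → r b a → a = b) →
      (∀ a b c, r a b → r b c → r a c) → (∀ a b x y, r a b → r (x * a * y) (x * b * y)) →
      ∃ s : G → G → Prop, (∀ a b, s a b → s b a → a = b) ∧
        (∀ a b c, s a b → s b c → s a c) ∧ (∀ a b x y, s a b → s (x * a * y) (x * b * y)) ∧
        (∀ a b, s a b ∨ s b a) ∧ ∀ a b, r a b → s a b) : ¬ Bad G := by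
  rintro ⟨g, x1, x2, y1, y2, a, b, ha, hb, hθa, hθb, hcl, hne⟩
  let θ : G → Prop := fun u => ∃ s t : G, u = (s⁻¹ * a * s) * (t⁻¹ * b * t)
  have θmul : ∀ u v, θ u → θ v → θ (u * v) := by
    rintro _ _ ⟨s, t, rfl⟩ ⟨s', t', rfl⟩
    exact hcl s t s' t'
  have θ1 : ¬ θ 1 := fun ⟨s, t, e⟩ => hne s t e.symm
  have θcj : ∀ u y, θ u → θ (y⁻¹ * u * y) := by
    rintro _ y ⟨s, t, rfl⟩
    exact ⟨s * y, t * y, by group⟩
  obtain ⟨s, anti, tr, inv, tot, ext⟩ := h (fun x y => x = y ∨ θ (x⁻¹ * y)) (fun _ => Or.inl rfl)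
    (by
      rintro x y (e | e) (e' | e')
      · exact e
      · exact e
      · exact e'.symm
      · exact absurd (by simpa using θmul _ _ e e') θ1)
    (by
      rintro x y z (rfl | e) (rfl | e')
      · exact Or.inl rfl
      · exact Or.inr e'
      · exact Or.inr e
      · exact Or.inr (by simpa [mul_assoc] using θmul _ _ e e'))
    (by
      rintro x y p q (rfl | e)
      · exact Or.inl rfl
      · refine Or.inr ?_
        have := θcj _ q e
        convert this using 1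
        group)
  have sa : s 1 a := ext _ _ (Or.inr (by simpa using hθa))
  have sb : s 1 b := ext _ _ (Or.inr (by simpa using hθb))
  have a1 : a ≠ 1 := fun e => θ1 (by rw [← e]; exact hθa)
  have b1 : b ≠ 1 := fun e => θ1 (by rw [← e]; exact hθb)
  have key : ∀ k p q : G, s k 1 → s ((p⁻¹ * k * p) * (q⁻¹ * k * q)) 1 := by
    intro k p q hk
    have h1 := inv _ _ p⁻¹ (p * (q⁻¹ * k * q)) hk
    have h2 := inv _ _ q⁻¹ q hk
    refine tr _ (q⁻¹ * k * q) _ ?_ (by simpa using h2)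
    convert h1 using 1 <;> group
  rcases tot g 1 with hg | hg
  · exact a1 (anti _ _ (ha ▸ key g x1 x2 hg) sa)
  · have : s g⁻¹ 1 := by simpa using inv _ _ g⁻¹ 1 hg
    exact b1 (anti _ _ (hb ▸ key g⁻¹ y1 y2 this) sb)

/-- The data of the coefficient ring. -/
structure Dat (O : Type) [CommRing O] where
  φ : O →+* ℝ
  ρ : O →+* ℚ
  s : O
  inj : Function.Injective φ
  unit : ∀ x, ρ x ≠ 0 → IsUnit x
  spos : 0 < φ s
  sneg : ρ s = -1
  ker : ∀ x, ρ x = 0 → ∃ y, x = (1 + s) * y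
  rat : ∀ q : ℚ, ∃ x, ρ x = q ∧ φ x = q

noncomputable def S : Submonoid ℚ[X] := (nonZeroDivisors ℚ).comap (evalRingHom (-1 : ℚ))

theorem memS (p : ℚ[X]) : p ∈ S ↔ p.eval (-1) ≠ 0 := by
  simp [S, mem_nonZeroDivisors_iff_ne_zero]

theorem exTau : ∃ τ : ℝ, 0 < τ ∧ Transcendental ℚ τ := by
  have h := transcendental_liouvilleNumber (m := 2) le_rfl
  have h' : Transcendental ℚ (liouvilleNumber ((2 : ℕ) : ℝ)) :=
    fun k => h ((IsFractionRing.isAlgebraic_iff ℤ ℚ ℝ).2 k)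
  refine ⟨_, ?_, h'.pow (n := 2) (by norm_num)⟩
  have : liouvilleNumber ((2 : ℕ) : ℝ) ≠ 0 := fun e => h' (e ▸ isAlgebraic_zero)
  positivity

theorem exDat : Nonempty (Dat (Localization S)) := by
  obtain ⟨τ, hτ, htr⟩ := exTau
  have hinj : Function.Injective (aeval τ : ℚ[X] →ₐ[ℚ] ℝ) := transcendental_iff_injective.1 htr
  have u1 : ∀ y : S, IsUnit ((aeval τ : ℚ[X] →ₐ[ℚ] ℝ).toRingHom y) := by
    intro y
    refine IsUnit.mk0 _ fun e => (memS _).1 y.2 ?_
    have : (y : ℚ[X]) = 0 := hinj (by simpa using e)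
    simp [this]
  have u2 : ∀ y : S, IsUnit (evalRingHom (-1 : ℚ) y) := fun y => IsUnit.mk0 _ ((memS _).1 y.2)
  have ρmk : ∀ (p : ℚ[X]) (q : S), IsLocalization.lift (S := Localization S) u2
      (IsLocalization.mk' _ p q) = 0 → p.eval (-1) = 0 := by
    intro p q e
    have := (IsLocalization.lift_mk'_spec (S := Localization S) u2 p 0 q).1 e
    simpa using this
  refine ⟨⟨IsLocalization.lift u1, IsLocalization.lift u2, algebraMap ℚ[X] _ X, ?_, ?_, ?_, ?_, ?_, ?_⟩⟩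
  · rw [injective_iff_map_eq_zero]
    intro x hx
    obtain ⟨⟨p, q⟩, rfl⟩ := IsLocalization.mk'_surjective S x
    have := (IsLocalization.lift_mk'_spec (S := Localization S) u1 p 0 q).1 hx
    have : p = 0 := hinj (by simpa using this)
    simp [this]
  · intro x hx
    obtain ⟨⟨p, q⟩, rfl⟩ := IsLocalization.mk'_surjective S x
    have hp : p ∈ S := (memS p).2 fun e => hx (by
      rw [IsLocalization.lift_mk'_spec]
      simpa using e)
    exact IsUnit.of_mul_eq_one _ (IsLocalization.mk'_mul_mk'_eq_one' p q hp)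
  · rw [IsLocalization.lift_eq]
    simpa using hτ
  · rw [IsLocalization.lift_eq]
    simp
  · intro x hx
    obtain ⟨⟨p, q⟩, rfl⟩ := IsLocalization.mk'_surjective S x
    obtain ⟨r, hr⟩ := dvd_iff_isRoot.2 (ρmk p q hx)
    refine ⟨IsLocalization.mk' _ r q, ?_⟩
    have : (1 + algebraMap ℚ[X] (Localization S) X) = algebraMap ℚ[X] (Localization S) (X - C (-1)) := by
      simp [add_comm]
    rw [this, IsLocalization.mul_mk'_eq_mk'_of_mul, ← hr]
  · intro q
    refine ⟨algebraMap ℚ[X] _ (C q), ?_, ?_⟩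
    · rw [IsLocalization.lift_eq]; simp
    · rw [IsLocalization.lift_eq]; simp

end Pool.Agent.H.MP_6e5331_al
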