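import Pool.Agent.H.MP_6e5331_al.A

set_option autoImplicit false

namespace Pool.Agent.H.MP_6e5331_al

variable {O : Type} [CommRing O]

/-- Triangular matrices `[[1, α, β], [0, u, 0], [0, w, v]]`. -/
@[ext] structure Gp (D : Dat O) where
  α : O
  β : O
  w : O
  u : Oˣ
  v : Oˣ
  hu : 0 < D.φ u
  hu' : 0 < D.ρ u
  hv : 0 < D.φ v

variable {D : Dat O}

theorem inv_pos' {R : Type*} [Field R] [LinearOrder R] [IsStrictOrderedRing R] (f : O →+* R)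
    (u : Oˣ) (h : 0 < f u) : 0 < f (u⁻¹ : Oˣ) := by
  rw [map_units_inv]; exact inv_pos.2 h

instance : Mul (Gp D) := ⟨fun x y =>
  ⟨y.α + x.α * y.u + x.β * y.w, y.β + x.β * y.v, x.w * y.u + x.v * y.w, x.u * y.u, x.v * y.v,
    by simpa using mul_pos x.hu y.hu, by simpa using mul_pos x.hu' y.hu',
    by simpa using mul_pos x.hv y.hv⟩⟩

instance : One (Gp D) := ⟨⟨0, 0, 0, 1, 1, by simp, by simp, by simp⟩⟩

instance : Inv (Gp D) := ⟨fun x =>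
  ⟨-x.α * (x.u⁻¹ : Oˣ) + x.β * (x.v⁻¹ : Oˣ) * x.w * (x.u⁻¹ : Oˣ), -x.β * (x.v⁻¹ : Oˣ),
    -(x.v⁻¹ : Oˣ) * x.w * (x.u⁻¹ : Oˣ), x.u⁻¹, x.v⁻¹,
    inv_pos' _ _ x.hu, inv_pos' _ _ x.hu', inv_pos' _ _ x.hv⟩⟩

@[simp] theorem mul_α (x y : Gp D) : (x * y).α = y.α + x.α * y.u + x.β * y.w := rfl
@[simp] theorem mul_β (x y : Gp D) : (x * y).β = y.β + x.β * y.v := rfl
@[simp] theorem mul_w (x y : Gp D) : (x * y).w = x.w * y.u + x.v * y.w := rfl
@[simp] theorem mul_u (x y : Gp D) : (x * y).u = x.u * y.u := rfl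
@[simp] theorem mul_v (x y : Gp D) : (x * y).v = x.v * y.v := rfl
@[simp] theorem one_α : (1 : Gp D).α = 0 := rfl
@[simp] theorem one_β : (1 : Gp D).β = 0 := rfl
@[simp] theorem one_w : (1 : Gp D).w = 0 := rfl
@[simp] theorem one_u : (1 : Gp D).u = 1 := rfl
@[simp] theorem one_v : (1 : Gp D).v = 1 := rfl
@[simp] theorem inv_α (x : Gp D) : (x⁻¹).α =
  -x.α * (x.u⁻¹ : Oˣ) + x.β * (x.v⁻¹ : Oˣ) * x.w * (x.u⁻¹ : Oˣ) := rfl
@[simp] theorem inv_β (x : Gp D) : (x⁻¹).β = -x.β * (x.v⁻¹ : Oˣ) := rfl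
@[simp] theorem inv_w (x : Gp D) : (x⁻¹).w = -(x.v⁻¹ : Oˣ) * x.w * (x.u⁻¹ : Oˣ) := rfl
@[simp] theorem inv_u (x : Gp D) : (x⁻¹).u = x.u⁻¹ := rfl
@[simp] theorem inv_v (x : Gp D) : (x⁻¹).v = x.v⁻¹ := rfl

instance : Group (Gp D) := Group.ofLeftAxioms
  (fun x y z => by ext <;> simp <;> ring)
  (fun x => by ext <;> simp)
  (fun x => by
    have h1 : ((x.u⁻¹ : Oˣ) : O) * x.u = 1 := by simp
    have h2 : ((x.v⁻¹ : Oˣ) : O) * x.v = 1 := by simp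
    ext
    · simp only [mul_α, inv_α, inv_β, one_α]
      linear_combination (-x.α + x.β * (x.v⁻¹ : Oˣ) * x.w) * h1
    · simp only [mul_β, inv_β, one_β]
      linear_combination (-x.β) * h2
    · simp only [mul_w, inv_w, inv_v, one_w]
      linear_combination (-(x.v⁻¹ : Oˣ) * x.w) * h1
    · simp
    · simp)

/-- The abelian normal subgroup. -/
def el (D : Dat O) (α β : O) : Gp D := ⟨α, β, 0, 1, 1, by simp, by simp, by simp⟩

theorem el_mul (a b c d : O) : el D a b * el D c d = el D (a + c) (b + d) := by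
  ext <;> simp [el] <;> ring

theorem el_inv (a b : O) : (el D a b)⁻¹ = el D (-a) (-b) := by
  ext <;> simp [el]

theorem el_cj (a b : O) (x : Gp D) : x⁻¹ * el D a b * x = el D (a * x.u + b * x.w) (b * x.v) := by
  rw [mul_assoc, inv_mul_eq_iff_eq_mul]
  ext <;> simp [el] <;> ring

theorem exq (w : O) {u v : O} (h1 : 0 < D.φ u) (h2 : 0 < D.ρ u) (h3 : 0 < D.φ v) (h4 : D.ρ v ≠ 0) :
    ∃ x : Gp D, (x.u : O) = u ∧ (x.v : O) = v ∧ x.w = w :=
  ⟨⟨0, 0, w, (D.unit u h2.ne').unit, (D.unit v h4).unit, by simpa, by simpa, by simpa⟩,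
    by simp, by simp, rfl⟩

theorem theta (α γ : O) (h : 0 < D.ρ α) : ∃ s t : Gp D, el D α ((1 + D.s) * γ) =
    (s⁻¹ * el D 1 (1 + D.s) * s) * (t⁻¹ * el D 1 (-(1 + D.s)) * t) := by
  obtain ⟨u, hu1, hu2⟩ := D.rat (D.ρ α / 2)
  obtain ⟨w, hw⟩ := D.ker (α - 2 * u) (by simp [map_ofNat, hu1]; ring)
  obtain ⟨n, hn⟩ := exists_nat_gt (|D.φ γ| + |((D.ρ γ : ℚ) : ℝ)|)
  have a1 := neg_abs_le (D.φ γ)
  have a2 := neg_abs_le ((D.ρ γ : ℚ) : ℝ)
  have a3 := abs_nonneg (D.φ γ)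
  have a4 := abs_nonneg ((D.ρ γ : ℚ) : ℝ)
  have hu3 : 0 < D.φ u := by rw [hu2]; exact_mod_cast half_pos h
  have hu4 : 0 < D.ρ u := by rw [hu1]; exact half_pos h
  have n0 : (0 : ℝ) < n := by linarith
  obtain ⟨s, s1, s2, s3⟩ := exq (D := D) w (u := u) (v := γ + n) hu3 hu4
    (by simp only [map_add, map_natCast]; linarith)
    (by
      have : (0 : ℝ) < ((D.ρ (γ + n) : ℚ) : ℝ) := by
        simp only [map_add, map_natCast]; push_cast; linarith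
      exact ne_of_gt (by exact_mod_cast this))
  obtain ⟨t, t1, t2, t3⟩ := exq (D := D) 0 (u := u) (v := n) hu3 hu4
    (by simpa using n0) (by simp only [map_natCast]; exact ne_of_gt (by exact_mod_cast n0))
  refine ⟨s, t, ?_⟩
  rw [el_cj, el_cj, el_mul, s1, s2, s3, t1, t2, t3]
  congr 1
  · linear_combination hw
  · ring

theorem theta' (s t : Gp D) : ∃ α γ, 0 < D.ρ α ∧
    (s⁻¹ * el D 1 (1 + D.s) * s) * (t⁻¹ * el D 1 (-(1 + D.s)) * t) = el D α ((1 + D.s) * γ) := by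
  rw [el_cj, el_cj, el_mul]
  refine ⟨_, s.v - t.v, ?_, by congr 1; ring⟩
  have := s.hu'
  have := t.hu'
  simp [D.sneg]
  linarith

theorem bad (D : Dat O) : Bad (Gp D) := by
  obtain ⟨x1, p1, p2, p3⟩ := exq (D := D) 1 (u := 1) (v := 1) (by simp) (by simp) (by simp) (by simp)
  obtain ⟨y1, q1, q2, q3⟩ := exq (D := D) (-1) (u := 1) (v := 1) (by simp) (by simp) (by simp) (by simp)
  obtain ⟨x2, r1, r2, r3⟩ := exq (D := D) 0 (u := 1) (v := D.s) (by simp) (by simp) D.spos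
    (by simp [D.sneg])
  refine ⟨el D 0 1, x1, x2, y1, x2, el D 1 (1 + D.s), el D 1 (-(1 + D.s)), ?_, ?_, ?_, ?_, ?_, ?_⟩
  · rw [el_cj, el_cj, el_mul, p2, p3, r2, r3]; simp
  · rw [el_inv, el_cj, el_cj, el_mul, q2, q3, r2, r3]
    congr 1 <;> ring
  · simpa using theta (D := D) 1 1 (by simp)
  · simpa using theta (D := D) 1 (-1) (by simp)
  · intro s t s' t'
    obtain ⟨α, γ, h, e⟩ := theta' s t
    obtain ⟨α', γ', h', e'⟩ := theta' s' t'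
    rw [e, e', el_mul, ← mul_add]
    exact theta _ _ (by simpa using add_pos h h')
  · intro s t k
    obtain ⟨α, γ, h, e⟩ := theta' s t
    have : α = 0 := congrArg Gp.α (e.symm.trans k)
    simp [this] at h

/-- Lexicographic comparison. -/
def Le (x y : Gp D) : Prop :=
  D.φ x.u < D.φ y.u ∨ x.u = y.u ∧ (D.φ x.v < D.φ y.v ∨ x.v = y.v ∧ (D.φ x.w < D.φ y.w ∨ x.w = y.w ∧
    (D.φ x.β < D.φ y.β ∨ x.β = y.β ∧ D.φ x.α ≤ D.φ y.α)))

def key (x : Gp D) : ℝ ×ₗ ℝ ×ₗ ℝ ×ₗ ℝ ×ₗ ℝ :=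
  toLex (D.φ x.u, toLex (D.φ x.v, toLex (D.φ x.w, toLex (D.φ x.β, D.φ x.α))))

theorem le_iff (x y : Gp D) : Le x y ↔ key x ≤ key y := by
  simp only [Le, key, Prod.Lex.toLex_le_toLex, D.inj.eq_iff, Units.val_inj]

theorem key_inj : Function.Injective (key (D := D)) := by
  intro x y h
  simp only [key, toLex_inj, Prod.mk.injEq, D.inj.eq_iff] at h
  obtain ⟨h1, h2, h3, h4, h5⟩ := h
  ext <;> assumption

theorem le_left (z : Gp D) {x y : Gp D} (h : Le x y) : Le (z * x) (z * y) := by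
  have := z.hu
  have := z.hv
  rcases h with h | ⟨e1, h | ⟨e2, h | ⟨e3, h | ⟨e4, h⟩⟩⟩⟩
  · left; simpa using mul_lt_mul_of_pos_left h z.hu
  · refine Or.inr ⟨by simp [e1], Or.inl ?_⟩
    simpa using mul_lt_mul_of_pos_left h z.hv
  · refine Or.inr ⟨by simp [e1], Or.inr ⟨by simp [e2], Or.inl ?_⟩⟩
    simpa [e1] using mul_lt_mul_of_pos_left h z.hv
  · refine Or.inr ⟨by simp [e1], Or.inr ⟨by simp [e2], Or.inr ⟨by simp [e1, e3], Or.inl ?_⟩⟩⟩
    simpa [e2] using h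
  · refine Or.inr ⟨by simp [e1], Or.inr ⟨by simp [e2], Or.inr ⟨by simp [e1, e3],
      Or.inr ⟨by simp [e2, e4], ?_⟩⟩⟩⟩
    simpa [e1, e3] using h

theorem le_right (z : Gp D) {x y : Gp D} (h : Le x y) : Le (x * z) (y * z) := by
  have := z.hu
  have := z.hv
  rcases h with h | ⟨e1, h | ⟨e2, h | ⟨e3, h | ⟨e4, h⟩⟩⟩⟩
  · left; simpa using mul_lt_mul_of_pos_right h z.hu
  · refine Or.inr ⟨by simp [e1], Or.inl ?_⟩
    simpa using mul_lt_mul_of_pos_right h z.hv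
  · refine Or.inr ⟨by simp [e1], Or.inr ⟨by simp [e2], Or.inl ?_⟩⟩
    simpa [e2] using mul_lt_mul_of_pos_right h z.hu
  · refine Or.inr ⟨by simp [e1], Or.inr ⟨by simp [e2], Or.inr ⟨by simp [e2, e3], Or.inl ?_⟩⟩⟩
    simpa using mul_lt_mul_of_pos_right h z.hv
  · refine Or.inr ⟨by simp [e1], Or.inr ⟨by simp [e2], Or.inr ⟨by simp [e2, e3],
      Or.inr ⟨by simp [e4], ?_⟩⟩⟩⟩
    simpa [e4] using mul_le_mul_of_nonneg_right h z.hu.le

theorem ordered (D : Dat O) : ∃ s : Gp D → Gp D → Prop, (∀ a, s a a) ∧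
    (∀ a b, s a b → s b a → a = b) ∧ (∀ a b c, s a b → s b c → s a c) ∧
    (∀ a b x y, s a b → s (x * a * y) (x * b * y)) ∧ ∀ a b, s a b ∨ s b a := by
  refine ⟨Le, fun a => (le_iff _ _).2 le_rfl, fun a b h k => key_inj (le_antisymm ((le_iff _ _).1 h)
    ((le_iff _ _).1 k)), fun a b c h k => (le_iff _ _).2 (((le_iff _ _).1 h).trans ((le_iff _ _).1 k)),
    fun a b x y h => le_right y (le_left x h), fun a b => ?_⟩
  rw [le_iff, le_iff]
  exact le_total _ _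

end Pool.Agent.H.MP_6e5331_al
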